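import Pool.Agent.H69.KZ.UNI
import Pool.Agent.H69.KZ.COM
import Pool.Agent.H69.KZ.LFT
import Pool.Agent.H69.KZ.RGT
import Pool.Agent.H48.KZ.BAS
import Pool.Agent.H48.KZ.GLI
import Pool.Agent.H47.KZ.TP2
import Pool.Agent.H47.KZ.MAI
import Pool.Agent.H55.KZ.IDN
import Pool.Agent.H55.KZ.RAT
import Pool.Agent.H55.KZ.KAT
import Pool.Agent.H7.KZ.Parts
import Pool.Agent.H98.KZ.MOD
import Pool.Agent.H87.KZ.GRO
import Pool.Agent.H87.KZ.LGR

/-!
# Unimodality of the `h*`-polynomials of the hypersimplices `Δ_{k,n}`, `k ≤ c n / log n`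

There is an absolute constant `C` such that for all `0 < k < n` with `C k log n ≤ n` or
`C (n - k) log n ≤ n` the coefficients `h*_0, ..., h*_{n-1}` of the `h*`-polynomial of the
hypersimplex `Δ_{k,n}` form a unimodal sequence. In particular for every fixed `k` all but finitely
many of the hypersimplices `Δ_{k,n}` and `Δ_{n-k,n}` satisfy the conjecture.

Here `L t` is the number of integer points of `t Δ_{k,n}` (the integer points of `[0,t]^n` with
coordinate sum `k t`), and `h i = ∑_j (-1)^j C(n,j) L(i-j)` is the coefficient of `x^i` in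
`(1-x)^n ∑_t L(t) x^t`, i.e. `h*_i`.

Proof. Katzman's formula: `h*_d = ∑_{i<k} (-1)^i C(n,i) c_{k-i}((k-i)d - i)`, where `c_r(m)` is the
coefficient of `y^m` in `(1+y+...+y^(r-1))^n`. For `d ≥ 36 log n` all terms with `i ≥ 1` together are
at most `c_k(kd)/(8n²)`: the term of index `i` is compared with the main term `c_k(kd)` by evaluating
the two generating polynomials at `y` and `y^(k/(k-i))`, `y` the saddle point of the main term, and
weighted AM-GM; the lower bound for the main term comes from log-concavity. The main term is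
log-concave with a quantitative increase `c_k(m+k) ≥ (1 + 1/((n+1)k)) c_k(m)` for `2m + k < n(k-1)`.
For `d ≤ 36 log n` the sequence increases since `L(t+1) ≥ 20 n L(t)`.
-/

set_option autoImplicit false

namespace Pool.Agent.Results.MP_31bda2_co.UnimodalOutsideTheBulk

open KZ

theorem result : ∃ C : ℝ, 0 < C ∧ ∀ n k : ℕ, 0 < k → k < n →
    (C * k * Real.log n ≤ n ∨ C * (n - k : ℕ) * Real.log n ≤ n) →
    ∀ L : ℕ → ℕ,
      (∀ t : ℕ, L t = ((Finset.univ : Finset (Fin n → Fin (t + 1))).filter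
          (fun x => ∑ i, (x i : ℕ) = k * t)).card) →
    ∀ h : ℕ → ℤ,
      (∀ i : ℕ, h i = ∑ j ∈ Finset.range (i + 1),
          (-1 : ℤ) ^ j * (n.choose j : ℤ) * (L (i - j) : ℤ)) →
    ∃ m : ℕ, m ≤ n - 1 ∧
      (∀ i j : ℕ, i ≤ j → j ≤ m → h i ≤ h j) ∧
      (∀ i j : ℕ, m ≤ i → i ≤ j → j ≤ n - 1 → h j ≤ h i) := by
  have hEVL := EVL_proved BAS_proved
  have hUPB := UPB_proved BAS_proved hEVL
  have hMON := MON_proved BAS_proved TP2_proved
  have hRAT := RAT_proved IDN_proved BAS_proved
  have hMOD := Pool.Agent.H98.KZp.MOD_proved TP2_proved BAS_proved hEVL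
  have hGLI := GLI_proved hMOD hUPB Pool.Agent.H98.KZp.AMG_proved hRAT
  have hLFT := LFT_proved hGLI hRAT BAS_proved hMON
  have hRGT := RGT_proved hGLI hRAT BAS_proved hMON
  have hMAI := MAI_proved BAS_proved TP2_proved hMON IDN_proved
  have hCOM := COM_proved KAT_proved hLFT hRGT hMAI BAS_proved
  have hGRO := Pool.Agent.H87.KZ.GRO_proved Pool.Agent.H87.KZ.LGR_proved
  have hUNI := UNI_proved hGRO hCOM KAT_proved
  exact RES_proved hUNI SYL_proved

end Pool.Agent.Results.MP_31bda2_co.UnimodalOutsideTheBulk
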